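import Pool.Agent.Helper28.CQ.Stmts

set_option autoImplicit false

/-!
# LEAF: coarse embeddings `Z^m → L × P` stay near one leaf
-/

namespace CQ

open Relation

namespace LeafAux

theorem dI_self {m : ℕ} (x : V m) : dI x x = 0 := by
  have : dI x x ≤ 0 := by
    rw [dI_le]; intro i; simp
  omega

theorem dI_symm {m : ℕ} (x y : V m) : dI x y = dI y x := by
  have h : ∀ x y : V m, dI x y ≤ dI y x := by
    intro x y
    rw [dI_le]
    intro i
    have := (dI_le (x := y) (y := x) (r := dI y x)).1 le_rfl i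
    omega
  exact le_antisymm (h x y) (h y x)

theorem dI_tri {m : ℕ} (x y z : V m) : dI x z ≤ dI x y + dI y z := by
  rw [dI_le]
  intro i
  have h1 := (dI_le (x := x) (y := y) (r := dI x y)).1 le_rfl i
  have h2 := (dI_le (x := y) (y := z) (r := dI y z)).1 le_rfl i
  omega

theorem dI_add {m : ℕ} (x y z : V m) : dI (x + z) (y + z) = dI x y := by
  unfold dI
  congr 1
  ext i
  simp

theorem dI_ball_finite {m : ℕ} (p : V m) (C : ℕ) : {q : V m | dI q p ≤ C}.Finite := by
  apply (Set.finite_Icc (p - fun _ => (C : ℤ)) (p + fun _ => (C : ℤ))).subset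
  intro q hq
  have hq' : ∀ i, (q i - p i).natAbs ≤ C := dI_le.1 hq
  constructor
  · intro i
    have := hq' i
    show p i - (C : ℤ) ≤ q i
    omega
  · intro i
    have := hq' i
    show q i ≤ p i + (C : ℤ)
    omega

/-- a map that is `K`-Lipschitz on unit steps is `K`-Lipschitz -/
theorem lip_of_unit {m : ℕ} {X : Type*} (d : X → X → ℕ) (h0 : ∀ x, d x x = 0)
    (htri : ∀ x y z, d x z ≤ d x y + d y z) (K : ℕ) (σ : V m → X)
    (h : ∀ x y, dI x y ≤ 1 → d (σ x) (σ y) ≤ K) :
    ∀ (R : ℕ) (x y : V m), dI x y ≤ R → d (σ x) (σ y) ≤ K * R := by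
  intro R
  induction R with
  | zero =>
    intro x y hxy
    have hxy' : ∀ i, (x i - y i).natAbs ≤ 0 := dI_le.1 hxy
    have : x = y := by
      ext i
      have := hxy' i
      omega
    rw [this, h0]
    simp
  | succ R ih =>
    intro x y hxy
    have hxy' : ∀ i, (x i - y i).natAbs ≤ R + 1 := dI_le.1 hxy
    let z : V m := fun i => if x i < y i then y i - 1 else if y i < x i then y i + 1 else y i
    have h1 : dI x z ≤ R := by
      rw [dI_le]
      intro i
      have := hxy' i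
      show (x i - (if x i < y i then y i - 1 else if y i < x i then y i + 1 else y i)).natAbs ≤ R
      split_ifs <;> omega
    have h2 : dI z y ≤ 1 := by
      rw [dI_le]
      intro i
      show ((if x i < y i then y i - 1 else if y i < x i then y i + 1 else y i) - y i).natAbs ≤ 1
      split_ifs <;> omega
    have h3 := ih x z h1
    have h4 := h z y h2
    have h5 := htri (σ x) (σ z) (σ y)
    calc d (σ x) (σ y) ≤ d (σ x) (σ z) + d (σ z) (σ y) := h5
      _ ≤ K * R + K := Nat.add_le_add h3 h4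
      _ = K * (R + 1) := by ring

theorem zmod2_eq {a b : ZMod 2} (h1 : a = 1 → b = 1) (h2 : b = 1 → a = 1) : a = b := by
  revert a b
  decide

end LeafAux

open LeafAux

theorem mod_LEAF (hLP : S_LP) (hDD : S_DD) (hNS : S_NS) : S_LEAF := by
  intro d k _ m c P dP ΔP hcm hP0 hPs hPt hcolP K ρ
  obtain ⟨hnorm, hnear, hbdd, -, -⟩ := hLP d k
  choose B hB using hbdd
  -- the colouring constants
  let Δ : ℕ → ℕ := fun R => ρ (B (K * R + 2 * K) + ΔP (K * R))
  obtain ⟨D, hD⟩ := hNS m c Δ hcm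
  obtain ⟨r', hr'⟩ := hDD m c Δ D (by omega)
  refine ⟨K + K * D, ?_⟩
  intro σ hσ
  set dist : (L d k × P) → (L d k × P) → ℕ := fun a b => nd (LN d k) a.1 b.1 + dP a.2 b.2 with hdist
  have hnd0 : ∀ a : L d k, nd (LN d k) a a = 0 := by
    intro a
    show LN d k (a⁻¹ * a) = 0
    rw [inv_mul_cancel]
    exact (hnorm.eq_zero 1).2 rfl
  have hndt : ∀ a b e : L d k, nd (LN d k) a e ≤ nd (LN d k) a b + nd (LN d k) b e := by
    intro a b e
    show LN d k (a⁻¹ * e) ≤ LN d k (a⁻¹ * b) + LN d k (b⁻¹ * e)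
    have : a⁻¹ * e = (a⁻¹ * b) * (b⁻¹ * e) := by group
    rw [this]
    exact hnorm.mul_le _ _
  have hdist0 : ∀ a, dist a a = 0 := by
    intro a
    show nd (LN d k) a.1 a.1 + dP a.2 a.2 = 0
    rw [hnd0, hP0]
  have hdistt : ∀ a b e, dist a e ≤ dist a b + dist b e := by
    intro a b e
    show nd (LN d k) a.1 e.1 + dP a.2 e.2 ≤
      (nd (LN d k) a.1 b.1 + dP a.2 b.2) + (nd (LN d k) b.1 e.1 + dP b.2 e.2)
    have h1 := hndt a.1 b.1 e.1
    have h2 := hPt a.2 b.2 e.2
    omega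
  have hlip : ∀ (R : ℕ) (x y : V m), dI x y ≤ R → dist (σ x) (σ y) ≤ K * R :=
    lip_of_unit dist hdist0 hdistt K σ hσ.1
  have hlip1 : ∀ (R : ℕ) (x y : V m), dI x y ≤ R → nd (LN d k) (σ x).1 (σ y).1 ≤ K * R := by
    intro R x y hxy
    have : nd (LN d k) (σ x).1 (σ y).1 + dP (σ x).2 (σ y).2 ≤ K * R := hlip R x y hxy
    omega
  have hlip2 : ∀ (R : ℕ) (x y : V m), dI x y ≤ R → dP (σ x).2 (σ y).2 ≤ K * R := by
    intro R x y hxy
    have : nd (LN d k) (σ x).1 (σ y).1 + dP (σ x).2 (σ y).2 ≤ K * R := hlip R x y hxy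
    omega
  -- the sets `A q`
  let A : V d → Set (V m) := fun q => {x | dI q (σ x).1.pos ≤ K}
  have hA : ∀ q, Col c dI (A q) Δ := by
    intro q R
    obtain ⟨colP, hcP⟩ := hcolP (K * R)
    refine ⟨fun x => colP (σ x).2, ?_⟩
    intro x y hx hxy
    have key : y ∈ A q ∧ (∀ q', K * R + K < dI q' q → (σ x).1.lamp q' = (σ y).1.lamp q') ∧
        ReflTransGen (fun a b => a ∈ (Set.univ : Set P) ∧ b ∈ (Set.univ : Set P) ∧
          dP a b ≤ K * R ∧ colP a = colP b) (σ x).2 (σ y).2 := by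
      induction hxy with
      | refl => exact ⟨hx, fun _ _ => rfl, ReflTransGen.refl⟩
      | @tail b e _ hbc ih =>
        obtain ⟨hb, he, hbe, hcol⟩ := hbc
        obtain ⟨-, h2, h3⟩ := ih
        refine ⟨he, ?_, h3.tail ⟨Set.mem_univ _, Set.mem_univ _, hlip2 R b e hbe, hcol⟩⟩
        intro q' hq'
        rw [h2 q' hq']
        apply (hnear (K * R) _ _ (hlip1 R b e hbe)).2
        have h4 : dI q (σ b).1.pos ≤ K := hb
        have h5 := dI_tri q' (σ b).1.pos q
        rw [dI_symm (σ b).1.pos q] at h5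
        omega
    obtain ⟨hy, hlamp, hchain⟩ := key
    have hPbound := hcP (σ x).2 (σ y).2 (Set.mem_univ _) hchain
    have hxq : dI q (σ x).1.pos ≤ K := hx
    have hyq : dI q (σ y).1.pos ≤ K := hy
    have hLbound : nd (LN d k) (σ x).1 (σ y).1 ≤ B (K * R + 2 * K) := by
      apply hB (K * R + 2 * K) ((σ x).1⁻¹ * (σ y).1)
      · have h1 : dI ((σ x).1⁻¹ * (σ y).1).pos 0 = dI (σ y).1.pos (σ x).1.pos := by
          rw [← dI_add ((σ x).1⁻¹ * (σ y).1).pos 0 (σ x).1.pos]
          simp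
        rw [h1]
        have h2 := dI_tri (σ y).1.pos q (σ x).1.pos
        rw [dI_symm (σ y).1.pos q] at h2
        omega
      · intro q' hq'
        simp only [L.mul_lamp, L.inv_lamp, L.inv_pos, sub_neg_eq_add]
        rw [hlamp (q' + (σ x).1.pos)]
        · exact CharTwo.add_self_eq_zero _
        · have h1 : dI q' 0 = dI (q' + (σ x).1.pos) (σ x).1.pos := by
            rw [← dI_add q' 0 (σ x).1.pos]
            simp
          rw [h1] at hq'
          have h2 := dI_tri (q' + (σ x).1.pos) q (σ x).1.pos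
          omega
    apply hσ.2 (B (K * R + 2 * K) + ΔP (K * R))
    show nd (LN d k) (σ x).1 (σ y).1 + dP (σ x).2 (σ y).2 ≤ _
    omega
  -- all deep points have the same lamp value at `q`
  have hdeep : ∀ q u v, (∀ w, dI u w ≤ D → w ∉ A q) → (∀ w, dI v w ≤ D → w ∉ A q) →
      (σ u).1.lamp q = (σ v).1.lamp q := by
    intro q u v hu hv
    have hbd : ∀ x y, dI x y ≤ 1 → (σ x).1.lamp q = 1 → ¬ (σ y).1.lamp q = 1 →
        x ∈ A q ∨ y ∈ A q := by
      intro x y hxy hsx hsy
      by_contra hcon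
      have h1 : ¬ dI q (σ x).1.pos ≤ K := fun h => hcon (Or.inl h)
      have h2 : nd (LN d k) (σ x).1 (σ y).1 ≤ K := by simpa using hlip1 1 x y hxy
      have h3 := (hnear K _ _ h2).2 q (by omega)
      rw [h3] at hsx
      exact hsy hsx
    apply zmod2_eq
    · exact hD (A q) (hA q) (fun x => (σ x).1.lamp q = 1) hbd u v hu hv
    · exact hD (A q) (hA q) (fun x => (σ x).1.lamp q = 1) hbd v u hv hu
  -- far points are deep
  have hfar : ∀ q x, K + K * D < dI q (σ x).1.pos → ∀ w, dI x w ≤ D → w ∉ A q := by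
    intro q x hx w hw hwA
    have h1 : dI q (σ w).1.pos ≤ K := hwA
    have h2 := (hnear (K * D) _ _ (hlip1 D x w hw)).1
    have h3 := dI_tri q (σ w).1.pos (σ x).1.pos
    rw [dI_symm (σ w).1.pos] at h3
    omega
  choose yq hyq1 hyq2 using fun q => hr' (A q) (hA q) 0
  have hlam : ∀ x q, K + K * D < dI q (σ x).1.pos →
      (σ x).1.lamp q = (σ (yq q)).1.lamp q := by
    intro x q hx
    exact hdeep q x (yq q) (hfar q x hx) (hyq2 q)
  refine ⟨fun q => (σ (yq q)).1.lamp q, ?_, hlam⟩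
  apply ((σ 0).1.fin.union (dI_ball_finite (σ 0).1.pos (K + K * D))).subset
  intro q hq
  by_contra hcon
  simp only [Set.mem_union, Set.mem_ofPred_eq, not_or, not_le, Function.mem_support, not_not] at hcon
  have h1 := hlam 0 q hcon.2
  rw [hcon.1] at h1
  exact hq h1.symm

end CQ
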